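import Mathlib

set_option autoImplicit false

namespace Pool.Agent.Results.MP_a37b83_nt.NoQ2

open Finset

/-- no nonempty subset has sum zero -/
def ZSF (m : ℕ) (S : Finset (ZMod m)) : Prop := ∀ T ⊆ S, T.Nonempty → ∑ x ∈ T, x ≠ 0

/-- the largest size of a zero-sum-free set of residues modulo `m` -/
noncomputable def k (m : ℕ) : ℕ := sSup {c : ℕ | ∃ S : Finset (ZMod m), ZSF m S ∧ S.card = c}

noncomputable def b (m : ℕ) : ℕ := ⌊(-1 + Real.sqrt (8 * m + 9)) / 2⌋₊

lemma b_bounds (m : ℕ) (hm : 5 ≤ m) : 3 ≤ b m ∧ (b m + 1) * b m ≤ 2 * m + 2 := by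
  have hm' : (5 : ℝ) ≤ m := by exact_mod_cast hm
  have h7 : (7 : ℝ) ≤ Real.sqrt (8 * m + 9) := Real.le_sqrt_of_sq_le (by linarith)
  have hs := Real.mul_self_sqrt (show (0 : ℝ) ≤ 8 * m + 9 by positivity)
  constructor
  · apply Nat.le_floor; push_cast; linarith
  · have h := Nat.floor_le (show (0 : ℝ) ≤ (-1 + Real.sqrt (8 * m + 9)) / 2 by linarith)
    have h0 : (0 : ℝ) ≤ b m := Nat.cast_nonneg _
    have : ((b m : ℝ) + 1) * b m ≤ 2 * m + 2 := by
      change (b m : ℝ) ≤ _ at h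
      nlinarith
    exact_mod_cast this

def g (i : ℕ) : ℤ := if i = 2 then -2 else i

lemma sum_ne (m n : ℕ) (hm : 5 ≤ m) (h3 : 3 ≤ n) (hn : (n + 1) * n ≤ 2 * m + 2) (U : Finset ℕ)
    (hU : U ⊆ Icc 1 n) (hne : U.Nonempty) : ¬ (m : ℤ) ∣ ∑ i ∈ U, g i := by
  have hs : ∑ i ∈ U.erase 2, g i = ((∑ i ∈ U.erase 2, i : ℕ) : ℤ) := by
    push_cast
    exact Finset.sum_congr rfl fun i hi => by simp [g, (Finset.mem_erase.1 hi).1]
  have hle : ∑ i ∈ U.erase 2, i ≤ ∑ i ∈ (range (n + 1)).erase 2, i := by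
    apply Finset.sum_le_sum_of_subset
    apply Finset.erase_subset_erase
    intro i hi
    have := Finset.mem_Icc.1 (hU hi)
    exact Finset.mem_range.2 (by omega)
  have h1 := Finset.add_sum_erase (range (n + 1)) (fun i => i) (a := 2) (Finset.mem_range.2 (by omega))
  have h2 := Finset.sum_range_id_mul_two (n + 1)
  simp only [Nat.add_sub_cancel] at h2
  have hlt : ∑ i ∈ U.erase 2, i < m := by omega
  intro hd
  by_cases h : 2 ∈ U
  · rw [← Finset.add_sum_erase U g h, hs] at hd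
    have hne2 : ∑ i ∈ U.erase 2, i ≠ 2 := by
      by_cases hx : ∃ x ∈ U.erase 2, 3 ≤ x
      · obtain ⟨x, hx, hx3⟩ := hx
        have := Finset.single_le_sum (f := fun i => i) (fun _ _ => Nat.zero_le _) hx
        omega
      · have : ∑ i ∈ U.erase 2, i ≤ ∑ i ∈ ({1} : Finset ℕ), i := by
          apply Finset.sum_le_sum_of_subset
          intro i hi
          have a1 := Finset.mem_Icc.1 (hU (Finset.mem_erase.1 hi).2)
          have a2 := (Finset.mem_erase.1 hi).1
          have a3 : ¬ 3 ≤ i := fun h3 => hx ⟨i, hi, h3⟩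
          exact Finset.mem_singleton.2 (by omega)
        simp at this
        omega
    have := Int.eq_zero_of_abs_lt_dvd hd (by rw [abs_lt]; simp only [g, if_true]; omega)
    simp only [g, if_true] at this
    omega
  · rw [Finset.erase_eq_of_notMem h] at hs hlt
    rw [hs] at hd
    obtain ⟨x, hx⟩ := hne
    have a1 := Finset.mem_Icc.1 (hU hx)
    have := Finset.single_le_sum (f := fun i => i) (fun _ _ => Nat.zero_le _) hx
    have := Int.eq_zero_of_abs_lt_dvd hd (by rw [abs_lt]; omega)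
    omega

lemma big (m : ℕ) (hm : 6 ≤ m) (hE : k m = b m) :
    ∃ S : Finset (ZMod m), ZSF m S ∧ S.card = k m ∧ (1 : ZMod m) ∈ S := by
  obtain ⟨h3, hn⟩ := b_bounds m (by omega)
  rw [hE]
  generalize b m = n at h3 hn
  have hnm : n + 2 < m := by nlinarith
  have inj : Set.InjOn (fun i => ((g i : ℤ) : ZMod m)) (Icc 1 n : Finset ℕ) := by
    intro i hi j hj h
    have a1 := Finset.mem_Icc.1 (Finset.mem_coe.1 hi)
    have a2 := Finset.mem_Icc.1 (Finset.mem_coe.1 hj)
    have hd := (ZMod.intCast_eq_intCast_iff_dvd_sub _ _ _).1 h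
    have := Int.eq_zero_of_abs_lt_dvd hd (by rw [abs_lt]; unfold g; split_ifs <;> omega)
    unfold g at this
    split_ifs at this <;> omega
  refine ⟨(Icc 1 n).image (fun i => ((g i : ℤ) : ZMod m)), ?_, ?_, ?_⟩
  · intro T hT hne h0
    obtain ⟨U, hU, rfl⟩ := Finset.subset_image_iff.1 hT
    rw [Finset.sum_image (inj.mono (by exact_mod_cast hU)), ← Int.cast_sum,
      ZMod.intCast_zmod_eq_zero_iff_dvd] at h0
    exact sum_ne m n (by omega) h3 hn U hU (Finset.image_nonempty.1 hne) h0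
  · rw [Finset.card_image_of_injOn inj]; simp
  · exact Finset.mem_image.2 ⟨1, Finset.mem_Icc.2 ⟨le_rfl, by omega⟩, by simp [g]⟩

theorem result (m : ℕ) (hm : 5 ≤ m) (hE : k m = b m) :
    ∃ S : Finset (ZMod m), ZSF m S ∧ S.card = k m ∧ ∃ x ∈ S, Nat.Coprime x.val m := by
  rcases Nat.eq_or_lt_of_le hm with h5 | h6
  · subst h5
    have h3 := (b_bounds 5 le_rfl).1
    have hmem : k 5 ∈ {c : ℕ | ∃ S : Finset (ZMod 5), ZSF 5 S ∧ S.card = c} := by
      apply Nat.sSup_mem
      · exact ⟨0, ∅, fun T hT hne => by simp [Finset.subset_empty.1 hT] at hne, rfl⟩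
      · refine ⟨Fintype.card (ZMod 5), ?_⟩
        rintro c ⟨S, -, rfl⟩
        exact Finset.card_le_univ S
    obtain ⟨S, hS, hc⟩ := hmem
    obtain ⟨x, hx⟩ : S.Nonempty := Finset.card_pos.1 (by omega)
    refine ⟨S, hS, hc, x, hx, ?_⟩
    have h0 : x ≠ 0 := by
      have := hS {x} (Finset.singleton_subset_iff.2 hx) (Finset.singleton_nonempty x)
      simpa using this
    clear hx
    revert x
    decide
  · obtain ⟨S, h1, h2, h3⟩ := big m h6 hE
    haveI : Fact (1 < m) := ⟨by omega⟩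
    exact ⟨S, h1, h2, 1, h3, by rw [ZMod.val_one]; exact Nat.coprime_one_left m⟩

end Pool.Agent.Results.MP_a37b83_nt.NoQ2
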